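import Pool.Agent.Helper489.LHCore4
import Pool.Agent.Helper489.RUT

/-!
# Regular unimodular triangulations of graded lecture hall order polytopes

For every naturally labeled graded poset `P` on `[n]` with nonnegative rank function `ρ`, the
lecture hall order polytope `O(P, ρ + 1)` has a regular unimodular triangulation.
-/

namespace Pool.Agent.Results.MP_c39498_co.LectureHallRUT

open Finset Geometry

/-- A labeled poset: a partial order on `[n]`. -/
structure LabeledPoset (n : ℕ) where
  /-- the order relation -/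
  le : Fin n → Fin n → Prop
  refl : ∀ x, le x x
  antisymm : ∀ x y, le x y → le y x → x = y
  trans : ∀ x y z, le x y → le y z → le x z

namespace LabeledPoset

variable {n : ℕ}

/-- The strict order of a labeled poset. -/
def lt (P : LabeledPoset n) (x y : Fin n) : Prop := P.le x y ∧ x ≠ y

/-- `y` covers `x`. -/
def Covers (P : LabeledPoset n) (x y : Fin n) : Prop :=
  P.lt x y ∧ ∀ z, ¬ (P.lt x z ∧ P.lt z y)

/-- `P` is naturally labeled. -/
def NaturallyLabeled (P : LabeledPoset n) : Prop := ∀ i j, P.le i j → i ≤ j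

/-- `ρ` is a rank function of `P` (so `P` is graded). -/
structure IsRankFunction (P : LabeledPoset n) (ρ : Fin n → ℤ) : Prop where
  strict : ∀ x y, P.lt x y → ρ x < ρ y
  cover : ∀ x y, P.Covers x y → ρ y = ρ x + 1

/-- The `s`-lecture hall order polytope `O(P, s)`. -/
def lectureHallOrderPolytope (P : LabeledPoset n) (s : Fin n → ℤ) : Set (Fin n → ℝ) :=
  {f | (∀ x y, P.lt x y → f x / (s x : ℝ) ≤ f y / (s y : ℝ)) ∧
    ∀ x, 0 ≤ f x / (s x : ℝ) ∧ f x / (s x : ℝ) ≤ 1}

end LabeledPoset

/-- The lattice points (points of `ℤ^n`) of a subset `Q` of `ℝ^n`. -/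
def latticePoints {n : ℕ} (Q : Set (Fin n → ℝ)) : Set (Fin n → ℝ) :=
  {x | x ∈ Q ∧ ∀ i, ∃ k : ℤ, x i = (k : ℝ)}

/-- `K` is the regular triangulation of `Q` induced by the height function `h` on the lattice
points of `Q`: `K` is a simplicial complex with underlying space `Q`, and its faces are exactly the
nonempty finite sets of lattice points of `Q` whose lifts span a lower face of the lifted point
configuration, i.e. for which some affine functional equals `h` on the set and is strictly smaller
than `h` at all the other lattice points of `Q`. -/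
structure IsRegularTriangulation {n : ℕ} (Q : Set (Fin n → ℝ))
    (K : SimplicialComplex ℝ (Fin n → ℝ)) (h : (Fin n → ℝ) → ℝ) : Prop where
  space_eq : K.space = Q
  mem_faces : ∀ σ : Finset (Fin n → ℝ), σ ∈ K.faces ↔
    σ.Nonempty ∧ (∀ v ∈ σ, v ∈ latticePoints Q) ∧
      ∃ (a : Fin n → ℝ) (c : ℝ), (∀ v ∈ σ, ∑ i, a i * v i + c = h v) ∧
        ∀ w ∈ latticePoints Q, w ∉ σ → ∑ i, a i * w i + c < h w

/-- `σ` is the vertex set of a unimodular simplex of dimension `n`: its elements are `n + 1`
lattice points `v 0, …, v n` with `|det (v 1 - v 0, …, v n - v 0)| = 1`, that is, the simplex has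
normalized volume `1`. -/
def IsUnimodularSimplex {n : ℕ} (σ : Finset (Fin n → ℝ)) : Prop :=
  ∃ v : Fin (n + 1) → (Fin n → ℤ), Function.Injective v ∧
    (∀ x, x ∈ σ ↔ ∃ j, x = fun i => (v j i : ℝ)) ∧
    |Matrix.det (Matrix.of fun (j : Fin n) (i : Fin n) => v j.succ i - v 0 i)| = 1

/-- `Q` has a regular unimodular triangulation. -/
def HasRegularUnimodularTriangulation {n : ℕ} (Q : Set (Fin n → ℝ)) : Prop :=
  ∃ (K : SimplicialComplex ℝ (Fin n → ℝ)) (h : (Fin n → ℝ) → ℝ),
    IsRegularTriangulation Q K h ∧ ∀ σ ∈ K.facets, IsUnimodularSimplex σ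

open Pool.Agent.Helper489.LHCore Pool.Agent.Helper489.RUT

section

variable {n : ℕ}

/-- The inclusion of the lattice. -/
def toR (f : Fin n → ℤ) : Fin n → ℝ := fun i => (f i : ℝ)

lemma toR_injective : Function.Injective (toR (n := n)) := by
  intro f g h
  funext i
  have := congrFun h i
  simpa [toR] using this

lemma ev_toR (a : Fin n → ℤ) (c : ℤ) (f : Fin n → ℤ) :
    ev ((fun i => (a i : ℝ)), (c : ℝ)) (toR f) = ((∑ z, a z * f z + c : ℤ) : ℝ) := by
  simp [ev, toR]

/-- Unimodularity of the maximal pairwise optimal families. -/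
lemma unimodular_of_uni {C : Finset (Fin n → ℤ)} (hU : Uni C) (hc : C.card = n + 1) :
    ∃ v : Fin (n + 1) → (Fin n → ℤ), Function.Injective v ∧ (∀ f, f ∈ C ↔ ∃ j, v j = f) ∧
      |Matrix.det (Matrix.of fun (j : Fin n) (i : Fin n) => v j.succ i - v 0 i)| = 1 := by
  classical
  let e : Fin (n + 1) ≃ C := (C.equivFinOfCardEq hc).symm
  let v : Fin (n + 1) → (Fin n → ℤ) := fun j => (e j : Fin n → ℤ)
  have hvinj : Function.Injective v := fun i j h => e.injective (Subtype.ext h)
  have hvC : ∀ j, v j ∈ C := fun j => (e j).2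
  refine ⟨v, hvinj, ?_, ?_⟩
  · intro f
    constructor
    · intro hf
      exact ⟨e.symm ⟨f, hf⟩, by simp [v]⟩
    · rintro ⟨j, rfl⟩
      exact hvC j
  · have hL : ∀ j : Fin n, ∃ (a : Fin n → ℤ) (c : ℤ),
        ∀ i, ∑ z, a z * v i z + c = if i = j.succ then 1 else 0 := by
      intro j
      obtain ⟨L, ⟨a, c, hL⟩, hφ⟩ := hU (fun f => if f = v j.succ then 1 else 0)
      refine ⟨a, c, fun i => ?_⟩
      rw [← hL, hφ (v i) (hvC i)]
      simp only [hvinj.eq_iff]
    choose a c hac using hL
    let M : Matrix (Fin n) (Fin n) ℤ :=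
      Matrix.of fun (j : Fin n) (i : Fin n) => v j.succ i - v 0 i
    let N : Matrix (Fin n) (Fin n) ℤ := Matrix.of fun (z : Fin n) (j : Fin n) => a j z
    have hMN : M * N = 1 := by
      ext i j
      rw [Matrix.mul_apply, Matrix.one_apply]
      have h1 := hac j i.succ
      have h2 := hac j 0
      have h3 : ∑ z, M i z * N z j = (∑ z, a j z * v i.succ z + c j) -
          (∑ z, a j z * v 0 z + c j) := by
        rw [add_sub_add_right_eq_sub, ← Finset.sum_sub_distrib]
        refine Finset.sum_congr rfl (fun z _ => ?_)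
        simp only [M, N, Matrix.of_apply]
        ring
      rw [h3, h1, h2]
      simp only [Fin.succ_inj, (Fin.succ_ne_zero j).symm, if_false, sub_zero]
    have hdet : M.det * N.det = 1 := by rw [← Matrix.det_mul, hMN, Matrix.det_one]
    exact Int.isUnit_iff_abs_eq.1 (IsUnit.of_mul_eq_one _ hdet)

end

variable {n : ℕ} {P : LabeledPoset n} {ρ : Fin n → ℤ}

/-- The lattice points of the polytope. -/
lemma toR_mem_iff (hρ : P.IsRankFunction ρ) (h0 : ∀ x, 0 ≤ ρ x) (f : Fin n → ℤ) :
    toR f ∈ P.lectureHallOrderPolytope (fun x => ρ x + 1) ↔ InA ρ P.Covers f := by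
  have hs : ∀ x, (0 : ℝ) < ((ρ x + 1 : ℤ) : ℝ) := by
    intro x
    have := h0 x
    exact_mod_cast (by omega : (0 : ℤ) < ρ x + 1)
  constructor
  · rintro ⟨h1, h2⟩
    refine ⟨fun x => ?_, fun x y hxy hx => ?_⟩
    · have h3 := (h2 x).1
      have h4 := (h2 x).2
      rw [div_le_one (hs x)] at h4
      have h5 : 0 ≤ toR f x := by
        by_contra hcon
        have := div_neg_of_neg_of_pos (not_le.1 hcon) (hs x)
        linarith
      simp only [toR] at h4 h5
      exact ⟨by exact_mod_cast h5, by exact_mod_cast h4⟩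
    · have h3 := h1 x y hxy.1
      rw [div_le_div_iff₀ (hs x) (hs y)] at h3
      simp only [toR] at h3
      have h4 : f x * (ρ y + 1) ≤ f y * (ρ x + 1) := by exact_mod_cast h3
      rw [hρ.cover x y hxy] at h4
      have h5 := h0 x
      by_contra hcon
      have h6 : f y ≤ f x := by omega
      nlinarith
  · intro hf
    have key : ∀ k : ℕ, ∀ x y, P.lt x y → (ρ y - ρ x).toNat ≤ k →
        toR f x / ((ρ x + 1 : ℤ) : ℝ) ≤ toR f y / ((ρ y + 1 : ℤ) : ℝ) := by
      intro k
      induction k with
      | zero =>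
        intro x y hxy hk
        have := hρ.strict x y hxy
        omega
      | succ k ih =>
        intro x y hxy hk
        by_cases hc : ∃ z, P.lt x z ∧ P.lt z y
        · obtain ⟨z, h1, h2⟩ := hc
          have h3 := hρ.strict x z h1
          have h4 := hρ.strict z y h2
          exact (ih x z h1 (by omega)).trans (ih z y h2 (by omega))
        · have hcov : P.Covers x y := ⟨hxy, fun z hz => hc ⟨z, hz⟩⟩
          have h1 := hf.1 x
          have h2 := hf.1 y
          have h3 := hf.2 x y hcov
          have h4 := hρ.cover x y hcov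
          have h5 := h0 x
          rw [div_le_div_iff₀ (hs x) (hs y)]
          simp only [toR]
          have h6 : f x * (ρ y + 1) ≤ f y * (ρ x + 1) := by
            rw [h4]
            rcases h1.1.lt_or_eq with h | h
            · have := h3 h
              nlinarith
            · rw [← h]
              have := mul_nonneg h2.1 (by omega : 0 ≤ ρ x + 1)
              linarith
          exact_mod_cast h6
    refine ⟨fun x y hxy => key _ x y hxy le_rfl, fun x => ⟨?_, ?_⟩⟩
    · have := (hf.1 x).1
      apply div_nonneg _ (hs x).le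
      simp only [toR]
      exact_mod_cast this
    · rw [div_le_one (hs x)]
      have := (hf.1 x).2
      simp only [toR]
      exact_mod_cast this

lemma polytope_convex (s : Fin n → ℤ) : Convex ℝ (P.lectureHallOrderPolytope s) := by
  intro f hf g hg a b ha hb hab
  have e : ∀ x, (a • f + b • g) x / (s x : ℝ) = a * (f x / (s x : ℝ)) + b * (g x / (s x : ℝ)) := by
    intro x
    simp only [Pi.add_apply, Pi.smul_apply, smul_eq_mul]
    ring
  refine ⟨fun x y hxy => ?_, fun x => ?_⟩
  · rw [e, e]
    have h1 := mul_le_mul_of_nonneg_left (hf.1 x y hxy) ha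
    have h2 := mul_le_mul_of_nonneg_left (hg.1 x y hxy) hb
    linarith
  · rw [e]
    have h1 := mul_nonneg ha (hf.2 x).1
    have h2 := mul_nonneg hb (hg.2 x).1
    have h3 := mul_le_mul_of_nonneg_left (hf.2 x).2 ha
    have h4 := mul_le_mul_of_nonneg_left (hg.2 x).2 hb
    constructor <;> linarith

lemma polytope_compact {s : Fin n → ℤ} (hs : ∀ x, 0 < s x) :
    IsCompact (P.lectureHallOrderPolytope s) := by
  have hs' : ∀ x, (0 : ℝ) < (s x : ℝ) := fun x => by exact_mod_cast hs x
  have hbox : IsCompact (Set.pi Set.univ (fun x : Fin n => Set.Icc (0 : ℝ) (s x))) :=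
    isCompact_univ_pi (fun x => isCompact_Icc)
  refine hbox.of_isClosed_subset ?_ ?_
  · have : P.lectureHallOrderPolytope s =
        (⋂ x, ⋂ y, ⋂ (_ : P.lt x y), {f : Fin n → ℝ | f x / (s x : ℝ) ≤ f y / (s y : ℝ)}) ∩
        ⋂ x, ({f : Fin n → ℝ | 0 ≤ f x / (s x : ℝ)} ∩ {f : Fin n → ℝ | f x / (s x : ℝ) ≤ 1}) := by
      ext f
      simp [LabeledPoset.lectureHallOrderPolytope]
    rw [this]
    apply IsClosed.inter
    · refine isClosed_iInter fun x => isClosed_iInter fun y => isClosed_iInter fun _ => ?_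
      exact isClosed_le ((continuous_apply x).div_const _) ((continuous_apply y).div_const _)
    · refine isClosed_iInter fun x => IsClosed.inter ?_ ?_
      · exact isClosed_le continuous_const ((continuous_apply x).div_const _)
      · exact isClosed_le ((continuous_apply x).div_const _) continuous_const
  · intro f hf
    rw [Set.mem_univ_pi]
    intro x
    have h1 := (hf.2 x).1
    have h2 := (hf.2 x).2
    rw [div_le_one (hs' x)] at h2
    refine ⟨?_, h2⟩
    by_contra hcon
    have := div_neg_of_neg_of_pos (not_le.1 hcon) (hs' x)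
    linarith

/-- The extreme points of the polytope are lattice points. -/
lemma extreme_lattice {s : Fin n → ℤ} (hs : ∀ x, 0 < s x) {f : Fin n → ℝ}
    (hf : f ∈ (P.lectureHallOrderPolytope s).extremePoints ℝ) :
    ∃ z : Fin n → ℤ, toR z = f := by
  have hs' : ∀ x, (0 : ℝ) < (s x : ℝ) := fun x => by exact_mod_cast hs x
  rw [mem_extremePoints] at hf
  obtain ⟨hfQ, hext⟩ := hf
  let g : Fin n → ℝ := fun x => f x / (s x : ℝ)
  have hg : ∀ x, 0 ≤ g x ∧ g x ≤ 1 := hfQ.2
  have hfg : ∀ x, f x = s x * g x := by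
    intro x
    simp only [g]
    field_simp [(hs' x).ne']
  let fp : Fin n → ℝ := fun x => s x * (g x + g x * (1 - g x) / 2)
  let fm : Fin n → ℝ := fun x => s x * (g x - g x * (1 - g x) / 2)
  have hp : ∀ x, fp x / (s x : ℝ) = g x + g x * (1 - g x) / 2 := by
    intro x; simp only [fp]; rw [mul_div_cancel_left₀ _ (hs' x).ne']
  have hm : ∀ x, fm x / (s x : ℝ) = g x - g x * (1 - g x) / 2 := by
    intro x; simp only [fm]; rw [mul_div_cancel_left₀ _ (hs' x).ne']
  have hpQ : fp ∈ P.lectureHallOrderPolytope s := by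
    refine ⟨fun x y hxy => ?_, fun x => ?_⟩
    · rw [hp, hp]
      have h1 : g x ≤ g y := hfQ.1 x y hxy
      have h2 := hg x
      have h3 := hg y
      nlinarith
    · rw [hp]
      have h2 := hg x
      constructor <;> nlinarith
  have hmQ : fm ∈ P.lectureHallOrderPolytope s := by
    refine ⟨fun x y hxy => ?_, fun x => ?_⟩
    · rw [hm, hm]
      have h1 : g x ≤ g y := hfQ.1 x y hxy
      have h2 := hg x
      have h3 := hg y
      nlinarith
    · rw [hm]
      have h2 := hg x
      constructor <;> nlinarith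
  have hseg : f ∈ openSegment ℝ fp fm := by
    refine ⟨1 / 2, 1 / 2, by norm_num, by norm_num, by norm_num, ?_⟩
    funext x
    simp only [Pi.add_apply, Pi.smul_apply, smul_eq_mul, fp, fm]
    rw [hfg]
    ring
  have heq := (hext fp hpQ fm hmQ hseg).1
  have h01 : ∀ x, g x = 0 ∨ g x = 1 := by
    intro x
    have h1 := congrFun heq x
    rw [hfg] at h1
    simp only [fp] at h1
    have h2 : g x + g x * (1 - g x) / 2 = g x := mul_left_cancel₀ (hs' x).ne' h1
    have h3 : g x * (1 - g x) = 0 := by linarith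
    rcases mul_eq_zero.1 h3 with h | h
    · exact Or.inl h
    · right; linarith
  classical
  refine ⟨fun x => if g x = 0 then 0 else s x, ?_⟩
  funext x
  simp only [toR]
  rw [hfg]
  rcases h01 x with h | h
  · simp [h]
  · simp [h]

/-- The polytope is the convex hull of its lattice points. -/
lemma polytope_eq_hull (hρ : P.IsRankFunction ρ) (h0 : ∀ x, 0 ≤ ρ x) {A : Finset (Fin n → ℤ)}
    (hA : ∀ f, f ∈ A ↔ InA ρ P.Covers f) [DecidableEq (Fin n → ℝ)] :
    P.lectureHallOrderPolytope (fun x => ρ x + 1) =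
      convexHull ℝ ((A.image toR : Finset (Fin n → ℝ)) : Set (Fin n → ℝ)) := by
  have hs : ∀ x, 0 < (fun x => ρ x + 1) x := fun x => by
    have := h0 x
    show 0 < ρ x + 1
    omega
  apply Set.Subset.antisymm
  · rw [← closure_convexHull_extremePoints (polytope_compact hs) (polytope_convex _)]
    refine closure_minimal ?_ (((A.image toR).finite_toSet).isClosed_convexHull (𝕜 := ℝ))
    apply convexHull_mono
    intro f hf
    obtain ⟨z, rfl⟩ := extreme_lattice hs hf
    rw [Finset.mem_coe, Finset.mem_image]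
    exact ⟨z, (hA z).2 ((toR_mem_iff hρ h0 z).1 hf.1), rfl⟩
  · apply convexHull_min _ (polytope_convex _)
    intro f hf
    rw [Finset.mem_coe, Finset.mem_image] at hf
    obtain ⟨z, hz, rfl⟩ := hf
    exact (toR_mem_iff hρ h0 z).2 ((hA z).1 hz)

/-- The lattice points affinely span the space. -/
lemma separates (hρ : P.IsRankFunction ρ) (h0 : ∀ x, 0 ≤ ρ x) {A : Finset (Fin n → ℤ)}
    (hA : ∀ f, f ∈ A ↔ InA ρ P.Covers f) [DecidableEq (Fin n → ℝ)]
    (φ : (Fin n → ℝ) × ℝ) (hφ : ∀ a ∈ A.image toR, ev φ a = 0) : φ = 0 := by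
  classical
  have h : ∀ f, InA ρ P.Covers f → ev φ (toR f) = 0 := fun f hf =>
    hφ _ (Finset.mem_image.2 ⟨f, (hA f).2 hf, rfl⟩)
  have hφ2 : φ.2 = 0 := by
    have := h (fun _ => 0) ⟨fun x => by have := h0 x; beta_reduce; constructor <;> omega,
      fun x y _ hx => absurd hx (lt_irrefl _)⟩
    simpa [ev, toR] using this
  have hφ1 : ∀ x, φ.1 x = 0 := by
    intro x
    have a1 := h (fun y => if P.le x y then ρ y + 1 else 0) (by
      refine ⟨fun y => ?_, fun y z hyz hy => ?_⟩
      · have := h0 y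
        beta_reduce
        split_ifs <;> constructor <;> omega
      · beta_reduce at hy ⊢
        by_cases hxy : P.le x y
        · have hxz : P.le x z := P.trans x y z hxy hyz.1.1
          rw [if_pos hxy, if_pos hxz, hρ.cover y z hyz]
        · rw [if_neg hxy] at hy
          exact absurd hy (lt_irrefl _))
    have a2 := h (fun y => if P.lt x y then ρ y + 1 else 0) (by
      refine ⟨fun y => ?_, fun y z hyz hy => ?_⟩
      · have := h0 y
        beta_reduce
        split_ifs <;> constructor <;> omega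
      · beta_reduce at hy ⊢
        by_cases hxy : P.lt x y
        · have hxz : P.lt x z := by
            refine ⟨P.trans x y z hxy.1 hyz.1.1, ?_⟩
            rintro rfl
            exact hxy.2 (P.antisymm _ _ hxy.1 hyz.1.1)
          rw [if_pos hxy, if_pos hxz, hρ.cover y z hyz]
        · rw [if_neg hxy] at hy
          exact absurd hy (lt_irrefl _))
    have a3 : ev φ (toR fun y => if P.le x y then ρ y + 1 else 0) -
        ev φ (toR fun y => if P.lt x y then ρ y + 1 else 0) = φ.1 x * (ρ x + 1) := by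
      simp only [ev, toR]
      rw [add_sub_add_right_eq_sub, ← Finset.sum_sub_distrib, Finset.sum_eq_single x]
      · have b1 : P.le x x := P.refl x
        have b2 : ¬ P.lt x x := fun h => h.2 rfl
        rw [if_pos b1, if_neg b2]
        push_cast
        ring
      · intro y _ hyx
        by_cases hxy : P.le x y
        · have : P.lt x y := ⟨hxy, fun h => hyx h.symm⟩
          rw [if_pos hxy, if_pos this, sub_self]
        · have : ¬ P.lt x y := fun h => hxy h.1
          rw [if_neg hxy, if_neg this, sub_self]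
      · intro h; exact absurd (mem_univ x) h
    rw [a1, a2, sub_zero] at a3
    have b3 : (0 : ℝ) < (ρ x : ℝ) + 1 := by
      have := h0 x
      exact_mod_cast (by omega : (0 : ℤ) < ρ x + 1)
    rcases mul_eq_zero.1 a3.symm with h | h
    · exact h
    · exact absurd h b3.ne'
  exact Prod.ext (funext hφ1) hφ2

/-- **Main theorem.** If `P` is a naturally labeled graded poset on `[n]` with nonnegative rank
function `ρ`, then the lecture hall order polytope `O(P, ρ + 1)` has a regular unimodular
triangulation. -/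
theorem result (n : ℕ) (P : LabeledPoset n) (ρ : Fin n → ℤ) (_hP : P.NaturallyLabeled)
    (hρ : P.IsRankFunction ρ) (h0 : ∀ x, 0 ≤ ρ x) :
    HasRegularUnimodularTriangulation (P.lectureHallOrderPolytope (fun x => ρ x + 1)) := by
  classical
  obtain ⟨ω, hω⟩ := exists_weight_core (ρ := ρ) (E := P.Covers) hρ.cover h0
  obtain ⟨A, hA⟩ := exists_finset ρ P.Covers
  let h : (Fin n → ℝ) → ℝ := fun x => ((ω (fun i => ⌊x i⌋) : ℤ) : ℝ)
  have hh : ∀ f : Fin n → ℤ, h (toR f) = (ω f : ℝ) := by
    intro f
    simp [h, toR]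
  have hlat : ∀ x, x ∈ latticePoints (P.lectureHallOrderPolytope (fun x => ρ x + 1)) ↔
      x ∈ A.image toR := by
    intro x
    constructor
    · rintro ⟨hx, hxi⟩
      choose k hk using hxi
      have hxk : toR k = x := funext (fun i => (hk i).symm)
      rw [Finset.mem_image]
      refine ⟨k, (hA k).2 ((toR_mem_iff hρ h0 k).1 ?_), hxk⟩
      rw [hxk]; exact hx
    · intro hx
      obtain ⟨k, hk, rfl⟩ := Finset.mem_image.1 hx
      exact ⟨(toR_mem_iff hρ h0 k).2 ((hA k).1 hk), fun i => ⟨k i, rfl⟩⟩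
  have huni : ∀ σ, Low (A.image toR) h σ → ∃ C : Finset (Fin n → ℤ), Uni C ∧
      σ = C.image toR := by
    intro σ hσ
    obtain ⟨hσA, φ, h1, h2⟩ := hσ
    refine ⟨A.filter (fun f => toR f ∈ σ), ?_, ?_⟩
    · apply hω
      · intro f hf
        exact (hA f).1 (Finset.mem_filter.1 hf).1
      · intro u hu v hv u' v' hu' hv' hs
        have e1 := h1 _ (Finset.mem_filter.1 hu).2
        have e2 := h1 _ (Finset.mem_filter.1 hv).2
        have le1 : ∀ f, InA ρ P.Covers f → ev φ (toR f) ≤ h (toR f) := by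
          intro f hf
          by_cases hfσ : toR f ∈ σ
          · exact (h1 _ hfσ).le
          · exact (h2 _ (Finset.mem_image.2 ⟨f, (hA f).2 hf, rfl⟩) hfσ).le
        have e3 := le1 u' hu'
        have e4 := le1 v' hv'
        have e5 : ev φ (toR u') + ev φ (toR v') = ev φ (toR u) + ev φ (toR v) := by
          simp only [ev, toR]
          have : ∑ i, φ.1 i * (u' i : ℝ) + ∑ i, φ.1 i * (v' i : ℝ) =
              ∑ i, φ.1 i * (u i : ℝ) + ∑ i, φ.1 i * (v i : ℝ) := by
            rw [← Finset.sum_add_distrib, ← Finset.sum_add_distrib]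
            refine Finset.sum_congr rfl (fun i _ => ?_)
            rw [← mul_add, ← mul_add]
            congr 1
            exact_mod_cast hs i
          linarith
        rw [hh] at e1 e2 e3 e4
        have e6 : (ω u : ℝ) + ω v ≤ ω u' + ω v' := by linarith
        exact_mod_cast e6
    · ext x
      rw [Finset.mem_image]
      constructor
      · intro hx
        obtain ⟨k, hk, rfl⟩ := Finset.mem_image.1 (hσA hx)
        exact ⟨k, Finset.mem_filter.2 ⟨hk, hx⟩, rfl⟩
      · rintro ⟨k, hk, rfl⟩
        exact (Finset.mem_filter.1 hk).2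
  have hdual : ∀ σ, Low (A.image toR) h σ → Dual σ := by
    intro σ hσ v hv
    obtain ⟨C, hC, rfl⟩ := huni σ hσ
    obtain ⟨k, hk, rfl⟩ := Finset.mem_image.1 hv
    obtain ⟨L, ⟨a, c, hL⟩, hφ⟩ := hC (fun f => if f = k then 1 else 0)
    refine ⟨((fun i => (a i : ℝ)), (c : ℝ)), ?_, ?_⟩
    · rw [ev_toR, ← hL, hφ k hk]
      simp
    · intro w hw hwk
      obtain ⟨l, hl, rfl⟩ := Finset.mem_image.1 hw
      have : l ≠ k := fun h => hwk (by rw [h])
      rw [ev_toR, ← hL, hφ l hl]
      simp [this]
  obtain ⟨K, hK1, hK2, hK3⟩ := exists_complex (A.image toR) h (separates hρ h0 hA) hdual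
  refine ⟨K, h, ⟨?_, ?_⟩, ?_⟩
  · rw [hK2, ← polytope_eq_hull hρ h0 hA]
  · intro σ
    rw [hK1]
    constructor
    · rintro ⟨hne, hσA, φ, h1, h2⟩
      refine ⟨hne, fun v hv => (hlat v).2 (hσA hv), φ.1, φ.2, h1, ?_⟩
      intro w hw hwσ
      exact h2 w ((hlat w).1 hw) hwσ
    · rintro ⟨hne, hσA, a, c, h1, h2⟩
      refine ⟨hne, fun v hv => (hlat v).1 (hσA v hv), (a, c), h1, ?_⟩
      intro w hw hwσ
      exact h2 w ((hlat w).2 hw) hwσ
  · intro σ hσ
    have hcard := hK3 σ hσ
    obtain ⟨C, hC, rfl⟩ := huni σ ((hK1 σ).1 hσ.1).2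
    rw [Finset.card_image_of_injective _ toR_injective] at hcard
    obtain ⟨v, hv1, hv2, hv3⟩ := unimodular_of_uni hC hcard
    refine ⟨v, hv1, ?_, hv3⟩
    intro x
    rw [Finset.mem_image]
    constructor
    · rintro ⟨f, hf, rfl⟩
      obtain ⟨j, rfl⟩ := (hv2 f).1 hf
      exact ⟨j, rfl⟩
    · rintro ⟨j, rfl⟩
      exact ⟨v j, (hv2 _).2 ⟨j, rfl⟩, rfl⟩

/-! ### Sanity checks -/

/-- The `n`-element chain. -/
def chain (n : ℕ) : LabeledPoset n where
  le x y := x ≤ y
  refl x := le_refl x
  antisymm _ _ h1 h2 := le_antisymm h1 h2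
  trans _ _ _ h1 h2 := le_trans h1 h2

lemma chain_naturallyLabeled (n : ℕ) : (chain n).NaturallyLabeled := fun _ _ h => h

lemma chain_isRankFunction (n : ℕ) (c : ℤ) :
    (chain n).IsRankFunction (fun x => (x : ℤ) + c) := by
  refine ⟨fun x y h => ?_, fun x y h => ?_⟩
  · have h1 : x < y := lt_of_le_of_ne h.1 h.2
    have h2 : (x : ℕ) < (y : ℕ) := h1
    omega
  · have h1 : x < y := lt_of_le_of_ne h.1.1 h.1.2
    have h2 : (x : ℕ) < (y : ℕ) := h1
    by_contra hcon
    have h3 : (x : ℕ) + 1 < (y : ℕ) := by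
      by_contra h4
      apply hcon
      have : (y : ℕ) = (x : ℕ) + 1 := by omega
      rw [this]; push_cast; ring
    have hz : (x : ℕ) + 1 < n := lt_trans h3 y.2
    refine h.2 ⟨(x : ℕ) + 1, hz⟩ ⟨⟨?_, ?_⟩, ⟨?_, ?_⟩⟩
    · show (x : ℕ) ≤ (x : ℕ) + 1
      omega
    · intro h5
      have : (x : ℕ) = (x : ℕ) + 1 := congrArg Fin.val h5
      omega
    · show (x : ℕ) + 1 ≤ (y : ℕ)
      omega
    · intro h5
      have : (x : ℕ) + 1 = (y : ℕ) := congrArg Fin.val h5
      omega

/-- The hypotheses are satisfiable: lecture hall simplices for `s = (c + 1, …, c + n)`. -/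
lemma chain_example (n : ℕ) (c : ℕ) : HasRegularUnimodularTriangulation
    ((chain n).lectureHallOrderPolytope (fun x => ((x : ℤ) + c) + 1)) :=
  result n (chain n) (fun x => (x : ℤ) + c) (chain_naturallyLabeled n)
    (chain_isRankFunction n c) (fun x => by positivity)

/-- In a regular triangulation every vertex of a face is a lattice point of the polytope. -/
lemma lattice_of_face {n : ℕ} {Q : Set (Fin n → ℝ)} {K : SimplicialComplex ℝ (Fin n → ℝ)}
    {h : (Fin n → ℝ) → ℝ} (H : IsRegularTriangulation Q K h) {σ : Finset (Fin n → ℝ)}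
    (hσ : σ ∈ K.faces) {v : Fin n → ℝ} (hv : v ∈ σ) : ∀ i, ∃ k : ℤ, v i = (k : ℝ) :=
  (((H.mem_faces σ).1 hσ).2.1 v hv).2

end Pool.Agent.Results.MP_c39498_co.LectureHallRUT
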